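import Mathlib

/-!
# MP_966f71_lc Part II: resolvent identities (base change) for rectangular data

`T` square, `X`, `Y` square (arbitrary), `mu` with columns `β`, `nu` with rows `α`.
-/

set_option autoImplicit false

namespace Pool.Agent.H24.R2

open Matrix

variable {F n α β : Type*} [Field F] [Fintype n] [DecidableEq n]

/-- `(1 - T X)⁻¹ T` -/
noncomputable def sT (T X : Matrix n n F) : Matrix n n F := (1 - T * X)⁻¹ * T

/-- `(1 - T X)⁻¹ mu` -/
noncomputable def sK (T X : Matrix n n F) (mu : Matrix n β F) : Matrix n β F :=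
  (1 - T * X)⁻¹ * mu

/-- `nu (1 - X T)⁻¹` -/
noncomputable def sL (T X : Matrix n n F) (nu : Matrix α n F) : Matrix α n F :=
  nu * (1 - X * T)⁻¹

/-- `nu X (1 - T X)⁻¹ mu` -/
noncomputable def sH (T X : Matrix n n F) (mu : Matrix n β F) (nu : Matrix α n F) :
    Matrix α β F := nu * X * sK T X mu

theorem one_sub_inv_mul {A : Matrix n n F} (h : A.det ≠ 0) : A⁻¹ * A = 1 :=
  Matrix.nonsing_inv_mul A (isUnit_iff_ne_zero.mpr h)

theorem one_sub_mul_inv' {A : Matrix n n F} (h : A.det ≠ 0) : A * A⁻¹ = 1 :=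
  Matrix.mul_nonsing_inv A (isUnit_iff_ne_zero.mpr h)

theorem reg_comm (T X : Matrix n n F) : (1 - T * X).det = (1 - X * T).det :=
  Matrix.det_one_sub_mul_comm T X

/-- factorisation of `1 - T (X + Y)` -/
theorem fac (T X Y : Matrix n n F) (h : (1 - T * X).det ≠ 0) :
    1 - T * (X + Y) = (1 - T * X) * (1 - sT T X * Y) := by
  have e : (1 - T * X) * (sT T X * Y) = T * Y := by
    rw [sT, ← Matrix.mul_assoc, ← Matrix.mul_assoc, one_sub_mul_inv' h, Matrix.one_mul]
  rw [Matrix.mul_sub, e, Matrix.mul_one, Matrix.mul_add]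
  abel

/-- push through -/
theorem sT_eq (T X : Matrix n n F) (h : (1 - T * X).det ≠ 0) :
    sT T X = T * (1 - X * T)⁻¹ := by
  have h' : (1 - X * T).det ≠ 0 := by rwa [← reg_comm]
  have e : (1 - T * X) * T = T * (1 - X * T) := by
    rw [Matrix.sub_mul, Matrix.mul_sub, Matrix.one_mul, Matrix.mul_one, Matrix.mul_assoc]
  calc sT T X = (1 - T * X)⁻¹ * (T * (1 - X * T)) * (1 - X * T)⁻¹ := by
        rw [sT, Matrix.mul_assoc, Matrix.mul_assoc, one_sub_mul_inv' h', Matrix.mul_one]
    _ = T * (1 - X * T)⁻¹ := by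
        rw [← e, ← Matrix.mul_assoc, one_sub_inv_mul h, Matrix.one_mul]

/-- factorisation of `1 - (X + Y) T` -/
theorem fac' (T X Y : Matrix n n F) (h : (1 - T * X).det ≠ 0) :
    1 - (X + Y) * T = (1 - Y * sT T X) * (1 - X * T) := by
  have h' : (1 - X * T).det ≠ 0 := by rwa [← reg_comm]
  have e : Y * sT T X * (1 - X * T) = Y * T := by
    rw [sT_eq T X h, Matrix.mul_assoc, Matrix.mul_assoc, one_sub_inv_mul h', Matrix.mul_one]
  rw [Matrix.sub_mul, e, Matrix.one_mul, Matrix.add_mul]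
  abel

/-- (S1) -/
theorem reg_add (T X Y : Matrix n n F) (h : (1 - T * X).det ≠ 0) :
    (1 - T * (X + Y)).det ≠ 0 ↔ (1 - sT T X * Y).det ≠ 0 := by
  rw [fac T X Y h, Matrix.det_mul]
  exact ⟨fun h1 h2 => h1 (by rw [h2, mul_zero]), fun h1 => mul_ne_zero h h1⟩

/-- (S2) for `T` -/
theorem sT_add (T X Y : Matrix n n F) (h : (1 - T * X).det ≠ 0) :
    sT (sT T X) Y = sT T (X + Y) := by
  unfold sT
  have e : 1 - T * (X + Y) = (1 - T * X) * (1 - (1 - T * X)⁻¹ * T * Y) := fac T X Y h
  rw [e, Matrix.mul_inv_rev, ← Matrix.mul_assoc]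

/-- (S2) for `mu` -/
theorem sK_add (T X Y : Matrix n n F) (mu : Matrix n β F) (h : (1 - T * X).det ≠ 0) :
    sK (sT T X) Y (sK T X mu) = sK T (X + Y) mu := by
  unfold sK
  rw [fac T X Y h, Matrix.mul_inv_rev, Matrix.mul_assoc]

/-- (S2) for `nu` -/
theorem sL_add (T X Y : Matrix n n F) (nu : Matrix α n F) (h : (1 - T * X).det ≠ 0) :
    sL (sT T X) Y (sL T X nu) = sL T (X + Y) nu := by
  unfold sL
  rw [fac' T X Y h, Matrix.mul_inv_rev, Matrix.mul_assoc]

/-- (S3) for `T`, first form -/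
theorem sT_eq_add (T X : Matrix n n F) (h : (1 - T * X).det ≠ 0) :
    sT T X = T + T * X * sT T X := by
  have e : (1 - T * X) * sT T X = T := by
    rw [sT, ← Matrix.mul_assoc, one_sub_mul_inv' h, Matrix.one_mul]
  rw [Matrix.sub_mul, Matrix.one_mul, sub_eq_iff_eq_add] at e
  exact e

/-- (S3) for `T`, second form -/
theorem sT_eq_add' (T X : Matrix n n F) (h : (1 - T * X).det ≠ 0) :
    sT T X = T + sT T X * X * T := by
  have h' : (1 - X * T).det ≠ 0 := by rwa [← reg_comm]
  have e : sT T X * (1 - X * T) = T := by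
    rw [sT_eq T X h, Matrix.mul_assoc, one_sub_inv_mul h', Matrix.mul_one]
  rw [Matrix.mul_sub, Matrix.mul_one, sub_eq_iff_eq_add] at e
  rw [Matrix.mul_assoc]
  exact e

/-- `k = mu + T X k` -/
theorem sK_eq_add (T X : Matrix n n F) (mu : Matrix n β F) (h : (1 - T * X).det ≠ 0) :
    sK T X mu = mu + T * X * sK T X mu := by
  have e : (1 - T * X) * sK T X mu = mu := by
    rw [sK, ← Matrix.mul_assoc, one_sub_mul_inv' h, Matrix.one_mul]
  rw [Matrix.sub_mul, Matrix.one_mul, sub_eq_iff_eq_add] at e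
  exact e

/-- `k = mu + T^X X mu` -/
theorem sK_eq_add' (T X : Matrix n n F) (mu : Matrix n β F) (h : (1 - T * X).det ≠ 0) :
    sK T X mu = mu + sT T X * X * mu := by
  have e : (1 - T * X)⁻¹ = 1 + sT T X * X := by
    have e1 : (1 + sT T X * X) * (1 - T * X) = 1 := by
      have e2 : sT T X * X * (1 - T * X) = T * X := by
        have e3 := sT_eq_add' T X h
        have e4 : sT T X * X * (1 - T * X) = sT T X * X - sT T X * X * T * X := by
          rw [Matrix.mul_sub, Matrix.mul_one, ← Matrix.mul_assoc]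
        rw [e4]
        have e5 : sT T X * X * T = sT T X - T := by
          rw [eq_sub_iff_add_eq, add_comm]
          exact e3.symm
        rw [e5, Matrix.sub_mul]
        abel
      rw [Matrix.add_mul, e2, Matrix.one_mul]
      abel
    exact Matrix.inv_eq_left_inv e1
  rw [sK, e, Matrix.add_mul, Matrix.one_mul]

/-- `l = nu + l X T` -/
theorem sL_eq_add (T X : Matrix n n F) (nu : Matrix α n F) (h : (1 - T * X).det ≠ 0) :
    sL T X nu = nu + sL T X nu * X * T := by
  have h' : (1 - X * T).det ≠ 0 := by rwa [← reg_comm]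
  have e : sL T X nu * (1 - X * T) = nu := by
    rw [sL, Matrix.mul_assoc, one_sub_inv_mul h', Matrix.mul_one]
  rw [Matrix.mul_sub, Matrix.mul_one, sub_eq_iff_eq_add] at e
  rw [Matrix.mul_assoc]
  exact e

/-- `l = nu + nu X T^X` -/
theorem sL_eq_add' (T X : Matrix n n F) (nu : Matrix α n F) (h : (1 - T * X).det ≠ 0) :
    sL T X nu = nu + nu * X * sT T X := by
  have h' : (1 - X * T).det ≠ 0 := by rwa [← reg_comm]
  have e : (1 - X * T)⁻¹ = 1 + X * sT T X := by
    have e1 : (1 + X * sT T X) * (1 - X * T) = 1 := by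
      have e2 : X * sT T X * (1 - X * T) = X * T := by
        rw [sT_eq T X h, Matrix.mul_assoc, Matrix.mul_assoc, one_sub_inv_mul h', Matrix.mul_one]
      rw [Matrix.add_mul, e2, Matrix.one_mul]
      abel
    exact Matrix.inv_eq_left_inv e1
  rw [sL, e, Matrix.mul_add, Matrix.mul_one, Matrix.mul_assoc]

/-- `l X mu = nu X k` -/
theorem sH_eq (T X : Matrix n n F) (mu : Matrix n β F) (nu : Matrix α n F)
    (h : (1 - T * X).det ≠ 0) : sH T X mu nu = sL T X nu * X * mu := by
  rw [sH, sK_eq_add' T X mu h, sL_eq_add' T X nu h, Matrix.mul_add, Matrix.add_mul, Matrix.add_mul]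
  congr 1
  simp only [Matrix.mul_assoc]

/-- `H(x + y) = H(x) + l(x) Y k(x + y)` -/
theorem sH_add (T X Y : Matrix n n F) (mu : Matrix n β F) (nu : Matrix α n F)
    (h : (1 - T * X).det ≠ 0) (h2 : (1 - T * (X + Y)).det ≠ 0) :
    sH T (X + Y) mu nu = sH T X mu nu + sL T X nu * Y * sK T (X + Y) mu := by
  have e1 := sK_eq_add T (X + Y) mu h2
  have e2 : sL T X nu * X * mu = nu * X * sK T X mu := (sH_eq T X mu nu h).symm
  have h' : (1 - X * T).det ≠ 0 := by rwa [← reg_comm]
  -- nu = l (1 - X T)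
  have e3 : nu = sL T X nu - sL T X nu * X * T := by
    have := sL_eq_add T X nu h
    rw [eq_sub_iff_add_eq]
    exact this.symm
  rw [sH_eq T X mu nu h]
  rw [sH]
  set k := sK T (X + Y) mu with hk
  set l := sL T X nu with hl
  calc nu * (X + Y) * k = (l - l * X * T) * (X + Y) * k := by rw [← e3]
    _ = l * X * (k - T * (X + Y) * k) + l * Y * k := by
        simp only [Matrix.sub_mul, Matrix.mul_add, Matrix.add_mul, Matrix.mul_sub, Matrix.mul_assoc]
        abel
    _ = l * X * mu + l * Y * k := by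
        congr 2
        rw [sub_eq_iff_eq_add]
        exact e1

/-- base change for `H` -/
theorem sH_shift (T X Y : Matrix n n F) (mu : Matrix n β F) (nu : Matrix α n F)
    (h : (1 - T * X).det ≠ 0) (h2 : (1 - T * (X + Y)).det ≠ 0) :
    sH T (X + Y) mu nu = sH T X mu nu + sH (sT T X) Y (sK T X mu) (sL T X nu) := by
  rw [sH_add T X Y mu nu h h2]
  congr 1
  rw [sH, sK_add T X Y mu h]

end Pool.Agent.H24.R2
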